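import Pool.Agent.Helper29.NP.Stab
import Pool.Agent.Helper3.EMK.Fin3

/-!
# Project NP: the exact value of the threshold for `ks ≤ n ≤ (k + 1/30)s`
-/

set_option autoImplicit false

open Finset

namespace Pool.Agent.Helper29.NP

open Filter Topology Pool.Agent.Helper14.FEM Pool.Agent.Helper3.EMK Pool.Agent.Helper84.FEI

theorem mass_np (n : ℕ) (A : Fin n → Prop) [DecidablePred A] :
    mass (fun _ : Fin n => 1 / (n : ℝ)) A = (#{i : Fin n | A i} : ℝ) / n := by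
  have h1 : (∑ i : Fin n, if A i then (1 / (n : ℝ)) else 0) = (#{i : Fin n | A i} : ℝ) / n := by
    rw [← Finset.sum_filter, Finset.sum_const, nsmul_eq_mul, mul_one_div]
  rw [← h1]
  unfold mass
  refine Finset.sum_congr rfl fun i _ => ?_
  by_cases h : A i
  · rw [if_pos h, if_pos h]
  · rw [if_neg h, if_neg h]

theorem prb_np (k n : ℕ) (hn : 0 < n) (x : Fin n → ℝ) :
    (k.factorial : ℝ) * cnt univ x k 1 ≤ (n : ℝ) ^ k * Prb k 1 (fun _ : Fin n => 1 / (n : ℝ)) x := by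
  have hn0 : (0 : ℝ) < n := by exact_mod_cast hn
  have h1 := cnt_le_T (univ : Finset (Fin n)) x k 1
  rw [T_univ, T_eq] at h1
  have h3 : Prb k 1 (fun _ : Fin n => 1 / (n : ℝ)) x =
      (1 / (n : ℝ)) ^ k * ∑ ω : Fin k → Fin n, if 1 ≤ ∑ j, x (ω j) then ∏ j : Fin k, (1 : ℝ) else 0 := by
    unfold Prb
    rw [Finset.mul_sum]
    refine Finset.sum_congr rfl fun ω _ => ?_
    split_ifs
    · simp
    · simp
  rw [h3]
  set S : ℝ := ∑ ω : Fin k → Fin n, if 1 ≤ ∑ j, x (ω j) then ∏ j : Fin k, (1 : ℝ) else 0 with hS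
  have e1 : (n : ℝ) ^ k * ((1 / (n : ℝ)) ^ k * S) = S := by
    rw [← mul_assoc, ← mul_pow, mul_one_div_cancel hn0.ne', one_pow, one_mul]
  rw [e1]
  exact h1

theorem beta_np (k : ℕ) (hk : 2 ≤ k) :
    ((k : ℝ) - 1) * ((1 + 1 / (30 * k)) - 1) * (1 + 1 / (30 * (k : ℝ))) ^ (k - 1) < 3 / 4 := by
  have hk0 : (0 : ℝ) < k := by exact_mod_cast (show 0 < k by omega)
  have hk2 : (2 : ℝ) ≤ k := by exact_mod_cast hk
  have h1 : (1 + 1 / (30 * (k : ℝ))) ^ (k - 1) ≤ Real.exp 1 := by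
    have h2 : 1 + 1 / (30 * (k : ℝ)) ≤ Real.exp (1 / (30 * k)) := by
      have := Real.add_one_le_exp (1 / (30 * (k : ℝ)))
      linarith
    refine (pow_le_pow_left₀ (by positivity) h2 _).trans ?_
    rw [← Real.exp_nat_mul]
    apply Real.exp_le_exp.mpr
    have h3 : ((k - 1 : ℕ) : ℝ) ≤ k := by exact_mod_cast Nat.sub_le _ _
    calc ((k - 1 : ℕ) : ℝ) * (1 / (30 * k)) ≤ k * (1 / (30 * k)) := by
          apply mul_le_mul_of_nonneg_right h3 (by positivity)
      _ ≤ 1 := by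
          rw [mul_one_div, div_le_one (by positivity)]
          linarith
  have h4 : ((k : ℝ) - 1) * ((1 + 1 / (30 * k)) - 1) ≤ 1 / 30 := by
    have e : ((k : ℝ) - 1) * ((1 + 1 / (30 * k)) - 1) = (k - 1) / (30 * k) := by ring
    rw [e, div_le_div_iff₀ (by positivity) (by norm_num)]
    linarith
  have h5 := Real.exp_one_lt_d9
  have h6 : 0 < Real.exp 1 := Real.exp_pos 1
  have h7 : (0 : ℝ) ≤ (1 + 1 / (30 * (k : ℝ))) ^ (k - 1) := by positivity
  calc ((k : ℝ) - 1) * ((1 + 1 / (30 * k)) - 1) * (1 + 1 / (30 * (k : ℝ))) ^ (k - 1)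
      ≤ 1 / 30 * (1 + 1 / (30 * (k : ℝ))) ^ (k - 1) := mul_le_mul_of_nonneg_right h4 h7
    _ < 3 / 4 := by linarith

/-- lower bound for the clique -/
theorem clique_ge (k s : ℕ) (hs : 1 ≤ s) :
    ((k : ℝ) * s) ^ k * (1 - k / s) ≤ (k.factorial : ℝ) * ((k * s - 1).choose k : ℕ) := by
  have hs0 : (0 : ℝ) < s := by exact_mod_cast hs
  have hs1 : (1 : ℝ) ≤ s := by exact_mod_cast hs
  rcases Nat.eq_zero_or_pos k with hk | hk
  · subst hk
    simp
  have hk0 : (0 : ℝ) < k := by exact_mod_cast hk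
  have hks : 1 ≤ k * s := Nat.mul_pos hk hs
  have h1 : (k * s - 1 + 1 - k) ^ k ≤ (k * s - 1).descFactorial k := Nat.pow_sub_le_descFactorial _ _
  rw [Nat.descFactorial_eq_factorial_mul_choose] at h1
  have h2 : (((k * s - 1 + 1 - k : ℕ) : ℝ)) ^ k ≤ (k.factorial : ℝ) * ((k * s - 1).choose k : ℕ) := by
    exact_mod_cast h1
  refine le_trans ?_ h2
  have h3 : k * s - 1 + 1 - k = k * s - k := by omega
  have h4 : k ≤ k * s := Nat.le_mul_of_pos_right k hs
  rw [h3, Nat.cast_sub h4]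
  push_cast
  have h5 := one_add_mul_le_pow (a := -(1 / (s : ℝ))) (by
    have : 1 / (s : ℝ) ≤ 1 := by rw [div_le_one hs0]; exact hs1
    linarith) k
  have h6 : 1 + (k : ℝ) * -(1 / (s : ℝ)) = 1 - k / s := by ring
  rw [h6] at h5
  have h7 : ((k : ℝ) * s - k) ^ k = ((k : ℝ) * s) ^ k * (1 + -(1 / (s : ℝ))) ^ k := by
    rw [← mul_pow]
    congr 1
    field_simp
    ring
  rw [h7]
  exact mul_le_mul_of_nonneg_left h5 (by positivity)

/-- the exact bound for weights near the perfect case -/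
theorem weights (k : ℕ) (hk : 2 ≤ k) : ∃ n₀ : ℕ, ∀ (n s : ℕ) (x : Fin n → ℝ), n₀ ≤ n → 1 ≤ s →
    k * s ≤ n → 30 * n ≤ (30 * k + 1) * s → (∀ i, 0 ≤ x i) → ∑ i, x i < s →
    cnt univ x k 1 ≤ (k * s - 1).choose k := by
  have hk0 : (0 : ℝ) < k := by exact_mod_cast (show 0 < k by omega)
  have hL5 : StL5 := Pool.Agent.Helper49.EMK.hL5 Pool.Agent.Helper86.EMK.hL1
    Pool.Agent.Helper29.EMK.hL3 Pool.Agent.Helper29.EMK.hL4 Pool.Agent.Helper94.EMK.hL4b
  have hβ1 : (1 : ℝ) ≤ 1 + 1 / (30 * k) := by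
    have : (0 : ℝ) < 1 / (30 * k) := by positivity
    linarith
  obtain ⟨ν, s₀, hν, h7⟩ := Pool.Agent.Helper98.EMK.hL7 k hk (1 + 1 / (30 * (k : ℝ))) hβ1
    (beta_np k hk)
  obtain ⟨τ, n₂, hτ0, h2⟩ := Pool.Agent.Helper99.EMK.hM2 k hk ν hν
  obtain ⟨ζ, hζ, hst⟩ := stab k (by omega) τ hτ0
  obtain ⟨n₃, hn₃⟩ := exists_nat_ge ((k : ℝ) / ζ)
  refine ⟨n₂ + (k + 1) * (s₀ + n₃) + 1, ?_⟩
  intro n s x hn hs hksn hnk hx hsum
  by_contra hcon
  rw [not_le] at hcon
  have hnk1 : n ≤ (k + 1) * s := by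
    have e : 30 * ((k + 1) * s) = (30 * k + 1) * s + 29 * s := by ring
    omega
  have hs0 : s₀ + n₃ < s := by
    have h3 : (k + 1) * (s₀ + n₃) < (k + 1) * s := by omega
    exact lt_of_mul_lt_mul_left h3 (Nat.zero_le _)
  have hnk2 : n ≤ (k + 2) * s := by
    have e : (k + 2) * s = (k + 1) * s + s := by ring
    omega
  have hn0 : 0 < n := by omega
  have hn0' : (0 : ℝ) < n := by exact_mod_cast hn0
  have hsr : (0 : ℝ) < s := by exact_mod_cast (show 0 < s by omega)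
  have hksr : (k : ℝ) * s ≤ n := by exact_mod_cast hksn
  have hnkr : 30 * (n : ℝ) ≤ (30 * k + 1) * s := by exact_mod_cast hnk
  have hP := prb_np k n hn0 x
  set Q := Prb k 1 (fun _ : Fin n => 1 / (n : ℝ)) x with hQ
  have hprb : (k * ((s : ℝ) / n)) ^ k - ζ ≤ Q := by
    have hnk' : (0 : ℝ) < (n : ℝ) ^ k := by positivity
    have e3 : (n : ℝ) ^ k * (k * ((s : ℝ) / n)) ^ k = ((k : ℝ) * s) ^ k := by
      rw [← mul_pow]
      congr 1
      field_simp
    have h3 := clique_ge k s hs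
    have h4 : (k.factorial : ℝ) * ((k * s - 1).choose k : ℕ) ≤ (k.factorial : ℝ) * cnt univ x k 1 := by
      apply mul_le_mul_of_nonneg_left _ (by positivity)
      exact_mod_cast hcon.le
    have h5 : (n : ℝ) ^ k * ((k * ((s : ℝ) / n)) ^ k * (1 - k / s)) ≤ (n : ℝ) ^ k * Q := by
      rw [← mul_assoc, e3]
      linarith
    have h6 : (k * ((s : ℝ) / n)) ^ k * (1 - k / s) ≤ Q := le_of_mul_le_mul_left h5 hnk'
    have h7 : (k * ((s : ℝ) / n)) ^ k ≤ 1 := by
      apply pow_le_one₀ (by positivity)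
      rw [← mul_div_assoc, div_le_one hn0']
      exact hksr
    have h8 : (k : ℝ) / s ≤ ζ := by
      rw [div_le_iff₀ hζ] at hn₃
      rw [div_le_iff₀ hsr]
      refine hn₃.trans ?_
      rw [mul_comm]
      apply mul_le_mul_of_nonneg_left _ hζ.le
      exact_mod_cast (show n₃ ≤ s by omega)
    have h9 : (0 : ℝ) ≤ k / s := by positivity
    have h10 : (k * ((s : ℝ) / n)) ^ k * (k / s) ≤ 1 * ζ :=
      mul_le_mul h7 h8 h9 zero_le_one
    linarith
  obtain ⟨hm, hm2⟩ := hst (Fin n) (fun _ => 1 / (n : ℝ)) x ((s : ℝ) / n) (fun _ => by positivity)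
    (by rw [Finset.sum_const, Finset.card_univ, Fintype.card_fin, nsmul_eq_mul]; field_simp) hx
    (by rw [div_le_div_iff₀ hn0' hk0]; linarith)
    (by rw [div_le_div_iff₀ (by positivity) hn0']; linarith)
    (by
      rw [← Finset.mul_sum, one_div, inv_mul_eq_div]
      exact div_le_div_of_nonneg_right hsum.le hn0'.le) hprb
  rw [mass_np, div_le_iff₀ hn0'] at hm
  rw [mass_np, le_div_iff₀ hn0'] at hm2
  obtain ⟨A, c', -, hAc, hA1, hA2⟩ := exists_top (univ : Finset (Fin n)) x (k * s)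
    (by rw [Finset.card_univ, Fintype.card_fin]; exact hksn)
  have htop : ∀ i ∈ A, ∀ j ∉ A, x j ≤ x i := by
    intro i hi j hj
    exact (hA2 j (Finset.mem_sdiff.mpr ⟨Finset.mem_univ _, hj⟩)).trans (hA1 i hi)
  have hm2' : (k : ℝ) * s - τ * n ≤ #{i : Fin n | |x i - 1 / k| ≤ τ} := by
    have e : (k * ((s : ℝ) / n) - τ) * n = (k : ℝ) * s - τ * n := by
      field_simp
    rw [← e]
    exact hm2
  have hu := h2 τ n s x A hτ0 le_rfl (by omega) hs hksn hnk2 hx hsum hm hm2' hcon.le hAc htop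
  have hnβ : (n : ℝ) ≤ (1 + 1 / (30 * (k : ℝ))) * (k * s) := by
    have e : (1 + 1 / (30 * (k : ℝ))) * (k * s) = (30 * k + 1) * s / 30 := by
      field_simp
    rw [e]
    linarith
  obtain ⟨hc1, hc2, hc3⟩ := h7 s n (#{i ∈ A | x i < 1 / (k : ℝ)}) (by omega) hksn hnβ hu
  have := hL5 n k s hk hs hksn x hx hsum A hAc htop (#{i ∈ A | x i < 1 / (k : ℝ)}) rfl hc1 hc2 hc3
  omega

/-- the exact value -/
theorem exactNP (k : ℕ) (hk : 2 ≤ k) : ∃ n₀ : ℕ, ∀ n s : ℕ, n₀ ≤ n → 1 ≤ s → k * s ≤ n →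
    30 * n ≤ (30 * k + 1) * s →
    f0 k n s = 1 + (k * s - 1).choose k ∧
      n.choose k - (n - s + 1).choose k ≤ (k * s - 1).choose k := by
  obtain ⟨n₀, h⟩ := weights k hk
  refine ⟨n₀, fun n s hn hs hks hns => ?_⟩
  have hsn : s ≤ n := by
    have h1 : 1 * s ≤ k * s := Nat.mul_le_mul_right s (by omega)
    omega
  have hup : (1 + (k * s - 1).choose k) ∈
      {m : ℕ | ∀ H : Finset (Finset (Fin n)), (∀ e ∈ H, e.card = k) → m ≤ H.card →
        HasFM H (s : ℝ)} := by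
    intro H hH hcard
    by_contra hno
    have hne : H.Nonempty := by rw [← Finset.card_pos]; omega
    obtain ⟨x, hx0, hxs, hxc⟩ := F_weights k n s hk (by exact_mod_cast hs) H hH hne hno
    have := h n s x hn hs hks hns hx0 hxs
    omega
  have hstar : n.choose k - (n - s + 1).choose k ≤ (k * s - 1).choose k := by
    by_contra hcon
    push Not at hcon
    obtain ⟨H, hH, hcard, hno⟩ := star_example k n s (by omega) hs hsn
    exact hno (hup H hH (by omega))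
  refine ⟨?_, hstar⟩
  unfold f0
  apply le_antisymm
  · exact Nat.sInf_le hup
  · apply le_csInf ⟨_, hup⟩
    intro m hm
    by_contra hlt
    obtain ⟨H, hH, hcard, hno⟩ := Pool.Agent.Helper22.EMK.hH1 k n s (by omega) hs hks
    exact hno (hm H hH (by omega))

end Pool.Agent.Helper29.NP
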