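import Pool.Agent.Helper29.NP.Ek

/-!
# Project NP: the dichotomy for a sum of independent samples with bounded upward jumps
-/

set_option autoImplicit false

open Finset

namespace Pool.Agent.Helper29.NP

/-- `e^z - 1 - z` -/
noncomputable def Ph (z : ℝ) : ℝ := Real.exp z - 1 - z

theorem Ph_nonneg (z : ℝ) : 0 ≤ Ph z := by
  unfold Ph
  have := Real.add_one_le_exp z
  linarith

theorem Ph_cont : Continuous Ph := by
  unfold Ph
  fun_prop

theorem sq_le_Ph (z : ℝ) (hz : 0 ≤ z) : z ^ 2 ≤ 2 * Ph z := by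
  unfold Ph
  have := Real.quadratic_le_exp_of_nonneg hz
  linarith

/-- the auxiliary function `2 Ph z - (e^z-1)^2` is antitone -/
theorem aux_antitone : Antitone (fun z : ℝ => 2 * (Real.exp z - 1 - z) - (Real.exp z - 1) ^ 2) := by
  have hd : ∀ z : ℝ, HasDerivAt (fun z : ℝ => 2 * (Real.exp z - 1 - z) - (Real.exp z - 1) ^ 2)
      (-2 * (Real.exp z - 1) ^ 2) z := by
    intro z
    have h1 : HasDerivAt (fun z : ℝ => Real.exp z - 1) (Real.exp z) z :=
      (Real.hasDerivAt_exp z).sub_const 1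
    have h2 : HasDerivAt (fun z : ℝ => Real.exp z - 1 - z) (Real.exp z - 1) z :=
      h1.sub (hasDerivAt_id z)
    have h3 := (h2.const_mul 2).sub (h1.pow 2)
    refine h3.congr_deriv ?_
    simp only [Nat.cast_ofNat, Nat.add_one_sub_one, pow_one]
    ring
  refine antitone_of_deriv_nonpos (fun z => (hd z).differentiableAt) (fun z => ?_)
  rw [(hd z).deriv]
  have := sq_nonneg (Real.exp z - 1)
  linarith

theorem sq_exp_le (z : ℝ) (hz : z ≤ 3 / 10) : (Real.exp z - 1) ^ 2 ≤ 5 / 2 * Ph z := by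
  rcases le_total z 0 with h0 | h0
  · have h1 := aux_antitone h0
    simp only [Real.exp_zero, sub_self, sub_zero, mul_zero] at h1
    have h2 := Ph_nonneg z
    unfold Ph at h2 ⊢
    nlinarith
  · have h1 : Real.exp z ≤ 1 + z + z ^ 2 / 2 + 2 / 9 * z ^ 3 := by
      have h := Real.exp_bound' h0 (by linarith) (n := 3) (by norm_num)
      simp only [Finset.sum_range_succ, Finset.sum_range_zero, Nat.factorial] at h
      norm_num at h
      linarith
    have h2 : 1 + z + z ^ 2 / 2 + z ^ 3 / 6 ≤ Real.exp z := by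
      have h := Real.sum_le_exp_of_nonneg h0 4
      simp only [Finset.sum_range_succ, Finset.sum_range_zero, Nat.factorial] at h
      norm_num at h
      linarith
    have h3 : 0 ≤ Real.exp z - 1 := by
      have := Real.add_one_le_exp z
      linarith
    have h4 : Real.exp z - 1 ≤ z * (1 + z / 2 + 2 / 9 * z ^ 2) := by nlinarith
    have h5 : z ^ 2 * (1 / 2 + z / 6) ≤ Ph z := by
      unfold Ph
      nlinarith
    have h6 : (Real.exp z - 1) ^ 2 ≤ (z * (1 + z / 2 + 2 / 9 * z ^ 2)) ^ 2 :=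
      pow_le_pow_left₀ h3 h4 2
    have h7 : (1 + z / 2 + 2 / 9 * z ^ 2) ^ 2 ≤ 5 / 2 * (1 / 2 + z / 6) := by
      have e1 : 0 ≤ z * (3 / 10 - z) := mul_nonneg h0 (by linarith)
      have e2 : 0 ≤ z ^ 2 * (3 / 10 - z) := mul_nonneg (by positivity) (by linarith)
      have e3 : 0 ≤ z ^ 3 * (3 / 10 - z) := mul_nonneg (by positivity) (by linarith)
      nlinarith
    calc (Real.exp z - 1) ^ 2 ≤ (z * (1 + z / 2 + 2 / 9 * z ^ 2)) ^ 2 := h6
      _ = z ^ 2 * (1 + z / 2 + 2 / 9 * z ^ 2) ^ 2 := by ring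
      _ ≤ z ^ 2 * (5 / 2 * (1 / 2 + z / 6)) := mul_le_mul_of_nonneg_left h7 (by positivity)
      _ = 5 / 2 * (z ^ 2 * (1 / 2 + z / 6)) := by ring
      _ ≤ 5 / 2 * Ph z := mul_le_mul_of_nonneg_left h5 (by norm_num)

theorem Ph_double (z : ℝ) (hz : z ≤ 3 / 10) : Ph (2 * z) ≤ 9 / 2 * Ph z := by
  have h1 := sq_exp_le z hz
  have h2 : Ph (2 * z) = (Real.exp z - 1) ^ 2 + 2 * Ph z := by
    unfold Ph
    rw [two_mul, Real.exp_add]
    ring
  rw [h2]
  linarith

theorem exp_135 : Real.exp (27 / 20) < 3.86 := by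
  have h1 : Real.exp (9 / 20 : ℝ) ≤ 1.5684 := by
    have h := Real.exp_bound' (x := 9 / 20) (by norm_num) (by norm_num) (n := 5) (by norm_num)
    simp only [Finset.sum_range_succ, Finset.sum_range_zero, Nat.factorial] at h
    norm_num at h
    linarith
  have h2 : Real.exp (27 / 20) = Real.exp (9 / 20 : ℝ) ^ 3 := by
    rw [← Real.exp_nat_mul]
    norm_num
  rw [h2]
  calc Real.exp (9 / 20 : ℝ) ^ 3 ≤ 1.5684 ^ 3 := pow_le_pow_left₀ (Real.exp_pos _).le h1 3
    _ < 3.86 := by norm_num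

theorem exp_03 : Real.exp (3 / 10) < 1.35 := by
  have h := Real.exp_bound' (x := 3 / 10) (by norm_num) (by norm_num) (n := 4) (by norm_num)
  simp only [Finset.sum_range_succ, Finset.sum_range_zero, Nat.factorial] at h
  norm_num at h
  norm_num
  linarith

variable {ι : Type} [Fintype ι]

theorem E1_exp (q : ι → ℝ) (hq1 : ∑ i, q i = 1) (f : ι → ℝ) (θ : ℝ) :
    E1 q (fun i => Real.exp (θ * f i)) = 1 + θ * E1 q f + E1 q (fun i => Ph (θ * f i)) := by
  have h : (fun i => Real.exp (θ * f i)) = fun i => (1 + θ * f i) + Ph (θ * f i) := by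
    funext i
    unfold Ph
    ring
  rw [h, E1_add, E1_add, E1_mul, E1_const q hq1]

theorem Ek_exp (k : ℕ) (q f : ι → ℝ) (θ : ℝ) :
    Ek k q (fun ω => Real.exp (θ * ∑ j, f (ω j))) = (E1 q (fun i => Real.exp (θ * f i))) ^ k := by
  rw [← Ek_prod]
  congr 1
  funext ω
  rw [Finset.mul_sum, Real.exp_sum]

/-- case 2 -/
theorem case2 (k : ℕ) (hk : 1 ≤ k) (q : ι → ℝ) (hq : ∀ i, 0 ≤ q i) (hq1 : ∑ i, q i = 1)
    (f : ι → ℝ) (m θ : ℝ) (hm : k * E1 q f = -m) (hθ : 0 < θ) (hf : ∀ i, θ * f i ≤ 3 / 10)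
    (hθm0 : 0 ≤ θ * m) (hθm : θ * m ≤ 3 / 200) (hV : k * E1 q (fun i => Ph (θ * f i)) = 3 / 10) :
    1 / 30 ≤ Ek k q (fun ω => if 0 < ∑ j, f (ω j) then 1 else 0) := by
  have hk0 : (0 : ℝ) < k := by exact_mod_cast hk
  set y := θ * m with hy
  set x : ℝ := 3 / 10 - y with hx
  have hE1 : E1 q (fun i => Real.exp (θ * f i)) = 1 + x / k := by
    rw [E1_exp q hq1]
    have h1 : E1 q f = -m / k := by field_simp; linarith
    have h2 : E1 q (fun i => Ph (θ * f i)) = 3 / 10 / k := by field_simp; linarith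
    rw [h1, h2, hx, hy]
    ring
  have hA : 1 + x ≤ Ek k q (fun ω => Real.exp (θ * ∑ j, f (ω j))) := by
    rw [Ek_exp, hE1]
    have h := one_add_mul_le_pow (a := x / k) (by
      have : 0 ≤ x / k := div_nonneg (by rw [hx]; linarith) hk0.le
      linarith) k
    have h2 : (k : ℝ) * (x / k) = x := by field_simp
    linarith
  have hB : Ek k q (fun ω => Real.exp (2 * θ * ∑ j, f (ω j))) ≤ Real.exp (27 / 20 - 2 * y) := by
    rw [Ek_exp]
    have h1 : E1 q (fun i => Real.exp (2 * θ * f i)) ≤ Real.exp ((27 / 20 - 2 * y) / k) := by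
      rw [E1_exp q hq1]
      have h2 : E1 q (fun i => Ph (2 * θ * f i)) ≤ 27 / 20 / k := by
        calc E1 q (fun i => Ph (2 * θ * f i)) ≤ E1 q (fun i => 9 / 2 * Ph (θ * f i)) := by
              refine E1_mono q _ _ hq (fun i => ?_)
              have := Ph_double (θ * f i) (hf i)
              rw [← mul_assoc] at this
              exact this
          _ = 9 / 2 * E1 q (fun i => Ph (θ * f i)) := E1_mul q _ _
          _ = 27 / 20 / k := by
              have h3 : E1 q (fun i => Ph (θ * f i)) = 3 / 10 / k := by field_simp; linarith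
              rw [h3]; ring
      have h4 : E1 q f = -m / k := by field_simp; linarith
      rw [h4]
      have h5 := Real.add_one_le_exp ((27 / 20 - 2 * y) / k)
      have h6 : 2 * θ * (-m / k) = -2 * y / k := by rw [hy]; ring
      rw [h6]
      have h7 : (27 / 20 - 2 * y) / k = 27 / 20 / k + -2 * y / k := by ring
      linarith
    calc (E1 q (fun i => Real.exp (2 * θ * f i))) ^ k ≤ (Real.exp ((27 / 20 - 2 * y) / k)) ^ k :=
          pow_le_pow_left₀ (E1_nonneg q _ hq (fun i => (Real.exp_pos _).le)) h1 k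
      _ = Real.exp (27 / 20 - 2 * y) := by
          rw [← Real.exp_nat_mul]
          congr 1
          field_simp
  have hpt : ∀ ω : Fin k → ι, (1 / 4 + 1 / 32) * Real.exp (θ * ∑ j, f (ω j)) - (1 / 4 + 1 / 64) -
      1 / 64 * Real.exp (2 * θ * ∑ j, f (ω j)) ≤ (if 0 < ∑ j, f (ω j) then 1 else 0) := by
    intro ω
    set S := ∑ j, f (ω j)
    have h2 : Real.exp (2 * θ * S) = Real.exp (θ * S) ^ 2 := by
      rw [← Real.exp_nat_mul]
      congr 1
      push_cast
      ring
    rw [h2]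
    set u := Real.exp (θ * S)
    by_cases hS : 0 < S
    · rw [if_pos hS]
      nlinarith [sq_nonneg (1 - 1 / 8 * (u - 1))]
    · rw [if_neg hS]
      have hu : u ≤ 1 := by
        have : θ * S ≤ 0 := mul_nonpos_of_nonneg_of_nonpos hθ.le (not_lt.mp hS)
        calc u ≤ Real.exp 0 := Real.exp_le_exp.mpr this
          _ = 1 := Real.exp_zero
      nlinarith [sq_nonneg (u - 1)]
  have hE := Ek_mono k q hq _ _ hpt
  rw [Ek_sub, Ek_sub, Ek_mul, Ek_mul, Ek_const k q hq1] at hE
  have hexp : Real.exp (27 / 20 - 2 * y) ≤ 3.86 - 2 * y := by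
    have h1 : Real.exp (27 / 20 - 2 * y) = Real.exp (27 / 20) * Real.exp (-(2 * y)) := by
      rw [← Real.exp_add]; ring_nf
    have h2 : Real.exp (-(2 * y)) ≤ 1 / (1 + 2 * y) := by
      rw [Real.exp_neg, ← one_div]
      refine one_div_le_one_div_of_le (by linarith) ?_
      have := Real.add_one_le_exp (2 * y)
      linarith
    have h3 := exp_135
    have h4 : (0 : ℝ) < 1 + 2 * y := by linarith
    calc Real.exp (27 / 20 - 2 * y) = Real.exp (27 / 20) * Real.exp (-(2 * y)) := h1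
      _ ≤ 3.86 * (1 / (1 + 2 * y)) :=
          mul_le_mul h3.le h2 (Real.exp_pos _).le (by norm_num)
      _ ≤ 3.86 - 2 * y := by
          rw [mul_one_div, div_le_iff₀ h4]
          nlinarith
  have hx1 : (57 : ℝ) / 200 ≤ x := by rw [hx]; linarith
  have hx2 : x = 3 / 10 - y := hx
  norm_num at hexp hE ⊢
  nlinarith

/-- case 1 -/
theorem case1 (k : ℕ) (hk : 1 ≤ k) (q : ι → ℝ) (hq : ∀ i, 0 ≤ q i) (hq1 : ∑ i, q i = 1)
    (f : ι → ℝ) (m θ : ℝ) (hm : k * E1 q f = -m) (hθ : 0 < θ)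
    (hθm0 : 0 ≤ θ * m) (hθm : θ * m ≤ 3 / 200) (hV : k * E1 q (fun i => Ph (θ * f i)) ≤ 3 / 10)
    (hP : Ek k q (fun ω => if 0 < ∑ j, f (ω j) then 1 else 0) < 1 / 30) :
    θ * Ek k q (fun ω => max (∑ j, f (ω j)) 0) ≤ 0.153 := by
  have hk0 : (0 : ℝ) < k := by exact_mod_cast hk
  set y := θ * m with hy
  have hE : Ek k q (fun ω => Real.exp (θ * ∑ j, f (ω j))) ≤ Real.exp (3 / 10 - y) := by
    rw [Ek_exp]
    have h1 : E1 q (fun i => Real.exp (θ * f i)) ≤ Real.exp ((3 / 10 - y) / k) := by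
      rw [E1_exp q hq1]
      have h2 : E1 q (fun i => Ph (θ * f i)) ≤ 3 / 10 / k := by
        rw [le_div_iff₀ hk0]; linarith
      have h4 : E1 q f = -m / k := by field_simp; linarith
      rw [h4]
      have h5 := Real.add_one_le_exp ((3 / 10 - y) / k)
      have h6 : θ * (-m / k) = -y / k := by rw [hy]; ring
      rw [h6]
      have h7 : (3 / 10 - y) / k = 3 / 10 / k + -y / k := by ring
      linarith
    calc (E1 q (fun i => Real.exp (θ * f i))) ^ k ≤ (Real.exp ((3 / 10 - y) / k)) ^ k :=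
          pow_le_pow_left₀ (E1_nonneg q _ hq (fun i => (Real.exp_pos _).le)) h1 k
      _ = Real.exp (3 / 10 - y) := by
          rw [← Real.exp_nat_mul]
          congr 1
          field_simp
  have hmean : Ek k q (fun ω => θ * ∑ j, f (ω j)) = -y := by
    rw [Ek_mul, Ek_sumf k q hq1, hm, hy]; ring
  have hpt : ∀ ω : Fin k → ι, θ * max (∑ j, f (ω j)) 0 ≤
      9 / 4 * (if 0 < ∑ j, f (ω j) then 1 else 0) +
      2 / 9 * ((Real.exp (θ * ∑ j, f (ω j)) - 1) - θ * ∑ j, f (ω j)) := by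
    intro ω
    set S := ∑ j, f (ω j)
    by_cases hS : 0 < S
    · rw [if_pos hS, max_eq_left hS.le]
      have h1 := sq_le_Ph (θ * S) (by positivity)
      unfold Ph at h1
      nlinarith [sq_nonneg (θ * S - 9 / 2)]
    · rw [if_neg hS, max_eq_right (not_lt.mp hS)]
      have h1 := Ph_nonneg (θ * S)
      unfold Ph at h1
      linarith
  have h3 := Ek_mono k q hq _ _ hpt
  rw [Ek_mul, Ek_add, Ek_mul, Ek_mul, Ek_sub, Ek_sub, Ek_const k q hq1, hmean] at h3
  have hexp : Real.exp (3 / 10 - y) ≤ 1.35 - y := by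
    have h1 : Real.exp (3 / 10 - y) = Real.exp (3 / 10) * Real.exp (-y) := by
      rw [← Real.exp_add]; ring_nf
    have h2 : Real.exp (-y) ≤ 1 / (1 + y) := by
      rw [Real.exp_neg, ← one_div]
      refine one_div_le_one_div_of_le (by linarith) ?_
      have := Real.add_one_le_exp y
      linarith
    have h4 := exp_03
    have h5 : (0 : ℝ) < 1 + y := by linarith
    calc Real.exp (3 / 10 - y) = Real.exp (3 / 10) * Real.exp (-y) := h1
      _ ≤ 1.35 * (1 / (1 + y)) := mul_le_mul h4.le h2 (Real.exp_pos _).le (by norm_num)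
      _ ≤ 1.35 - y := by
          rw [mul_one_div, div_le_iff₀ h5]
          nlinarith
  norm_num at hexp h3 ⊢
  linarith

/-- the dichotomy -/
theorem dich (k : ℕ) (hk : 1 ≤ k) (q : ι → ℝ) (hq : ∀ i, 0 ≤ q i) (hq1 : ∑ i, q i = 1)
    (f : ι → ℝ) (t : ℝ) (ht : 0 < t) (hf : ∀ i, f i ≤ t) (hm : k * E1 q f = -(t / 20))
    (hP : Ek k q (fun ω => if 0 < ∑ j, f (ω j) then 1 else 0) < 1 / 30) :
    Ek k q (fun ω => max (∑ j, -f (ω j)) 0) ≤ 14 / 25 * t := by
  set θ₁ : ℝ := 3 / 10 / t with hθ₁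
  have hθ₁0 : 0 < θ₁ := by positivity
  have hθt : θ₁ * t = 3 / 10 := by rw [hθ₁]; field_simp
  have hV1 : k * E1 q (fun i => Ph (θ₁ * f i)) ≤ 3 / 10 := by
    by_contra hcon
    push Not at hcon
    have hc : Continuous (fun θ : ℝ => (k : ℝ) * E1 q (fun i => Ph (θ * f i))) := by
      unfold E1
      refine continuous_const.mul (continuous_finset_sum _ (fun i _ => ?_))
      exact continuous_const.mul (Ph_cont.comp (continuous_id.mul continuous_const))
    have h0 : (fun θ : ℝ => (k : ℝ) * E1 q (fun i => Ph (θ * f i))) 0 = 0 := by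
      simp [E1, Ph]
    have hmem : (3 / 10 : ℝ) ∈ Set.Icc ((fun θ : ℝ => (k : ℝ) * E1 q (fun i => Ph (θ * f i))) 0)
        ((fun θ : ℝ => (k : ℝ) * E1 q (fun i => Ph (θ * f i))) θ₁) := by
      rw [h0]
      exact ⟨by norm_num, hcon.le⟩
    obtain ⟨θ, ⟨hθa, hθb⟩, hθ⟩ := intermediate_value_Icc hθ₁0.le hc.continuousOn hmem
    have hθ0 : 0 < θ := by
      rcases lt_or_eq_of_le hθa with h | h
      · exact h
      · exfalso
        rw [← h] at hθ
        rw [h0] at hθ
        norm_num at hθ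
    have h1 := case2 k hk q hq hq1 f (t / 20) θ hm hθ0 (fun i => ?_) (by positivity) ?_ hθ
    · linarith
    · calc θ * f i ≤ θ * t := mul_le_mul_of_nonneg_left (hf i) hθ0.le
        _ ≤ θ₁ * t := mul_le_mul_of_nonneg_right hθb ht.le
        _ = 3 / 10 := hθt
    · calc θ * (t / 20) ≤ θ₁ * (t / 20) := mul_le_mul_of_nonneg_right hθb (by positivity)
        _ = 3 / 200 := by
            rw [show θ₁ * (t / 20) = (θ₁ * t) / 20 by ring, hθt]; norm_num
  have h2 := case1 k hk q hq hq1 f (t / 20) θ₁ hm hθ₁0 (by positivity)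
    (by rw [show θ₁ * (t / 20) = (θ₁ * t) / 20 by ring, hθt]; norm_num) hV1 hP
  have h3 : Ek k q (fun ω => max (∑ j, f (ω j)) 0) ≤ 0.51 * t := by
    have h4 : θ₁ * (0.51 * t) = 0.153 := by
      rw [show θ₁ * (0.51 * t) = 0.51 * (θ₁ * t) by ring, hθt]; norm_num
    rw [← h4] at h2
    exact le_of_mul_le_mul_left h2 hθ₁0
  have h5 : Ek k q (fun ω => max (∑ j, -f (ω j)) 0) =
      Ek k q (fun ω => max (∑ j, f (ω j)) 0) + t / 20 := by
    have h6 : (fun ω : Fin k → ι => max (∑ j, -f (ω j)) 0) =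
        fun ω => max (∑ j, f (ω j)) 0 - ∑ j, f (ω j) := by
      funext ω
      rw [Finset.sum_neg_distrib]
      rcases le_total (∑ j, f (ω j)) 0 with h | h
      · rw [max_eq_left (by linarith), max_eq_right h]; ring
      · rw [max_eq_right (by linarith), max_eq_left h]; ring
    rw [h6, Ek_sub, Ek_sumf k q hq1, hm]
    ring
  rw [h5]
  norm_num at h3 ⊢
  linarith

end Pool.Agent.Helper29.NP
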