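import Pool.Agent.Helper29.NP.Dich

/-!
# Project NP: the main inequality
-/

set_option autoImplicit false

open Finset

namespace Pool.Agent.Helper29.NP

variable {ι : Type} [Fintype ι]

/-- deficit -/
noncomputable def db (y : ι → ℝ) (i : ι) : ℝ := max (1 - y i) 0

/-- excess -/
noncomputable def ww (y : ι → ℝ) (i : ι) : ℝ := max (y i - 1) 0

/-- truncated deficit minus excess -/
noncomputable def ff (y : ι → ℝ) (t : ℝ) (i : ι) : ℝ := min (db y i) t - ww y i

omit [Fintype ι] in
theorem db_nonneg (y : ι → ℝ) (i : ι) : 0 ≤ db y i := le_max_right _ _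

omit [Fintype ι] in
theorem ww_nonneg (y : ι → ℝ) (i : ι) : 0 ≤ ww y i := le_max_right _ _

omit [Fintype ι] in
theorem db_le_one (y : ι → ℝ) (hy : ∀ i, 0 ≤ y i) (i : ι) : db y i ≤ 1 :=
  max_le (by linarith [hy i]) zero_le_one

omit [Fintype ι] in
theorem db_sub_ww (y : ι → ℝ) (i : ι) : db y i - ww y i = 1 - y i := by
  unfold db ww
  rcases le_total (y i) 1 with h | h
  · rw [max_eq_left (by linarith), max_eq_right (by linarith)]
    ring
  · rw [max_eq_right (by linarith), max_eq_left (by linarith)]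
    ring

omit [Fintype ι] in
theorem ff_le (y : ι → ℝ) (t : ℝ) (i : ι) : ff y t i ≤ 1 - y i := by
  rw [← db_sub_ww]
  unfold ff
  linarith [min_le_left (db y i) t]

omit [Fintype ι] in
theorem ff_le_t (y : ι → ℝ) (t : ℝ) (i : ι) : ff y t i ≤ t := by
  unfold ff
  linarith [min_le_right (db y i) t, ww_nonneg y i]

omit [Fintype ι] in
/-- if the deficit is larger than `t ≥ 0` then there is no excess -/
theorem ww_zero (y : ι → ℝ) (t : ℝ) (ht : 0 ≤ t) (i : ι) (h : t < db y i) :
    ww y i = 0 ∧ db y i = 1 - y i := by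
  have h1 : y i < 1 := by
    by_contra hcon
    push Not at hcon
    have : db y i = 0 := max_eq_right (by linarith)
    linarith
  unfold db ww
  exact ⟨max_eq_right (by linarith), max_eq_left (by linarith)⟩

/-- the choice of the truncation level -/
theorem exists_t (k : ℕ) (q y : ι → ℝ) (hq : ∀ i, 0 ≤ q i) (hy : ∀ i, 0 ≤ y i)
    (hq1 : ∑ i, q i = 1) (hm : E1 q y ≤ 1) :
    ∃ t : ℝ, 0 ≤ t ∧ t ≤ 1 ∧
      k * (E1 q (ww y) - E1 q (fun i => min (db y i) t)) = t / 20 := by
  have hc : Continuous (fun t : ℝ =>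
      (k : ℝ) * (E1 q (ww y) - E1 q (fun i => min (db y i) t)) - t / 20) := by
    unfold E1
    refine (continuous_const.mul (continuous_const.sub
      (continuous_finset_sum _ (fun i _ => ?_)))).sub (by fun_prop)
    exact continuous_const.mul (continuous_const.min continuous_id)
  have h0 : (0 : ℝ) ≤ (k : ℝ) * (E1 q (ww y) - E1 q (fun i => min (db y i) 0)) - 0 / 20 := by
    have e1 : (fun i => min (db y i) 0) = fun _ => (0 : ℝ) := by
      funext i
      exact min_eq_right (db_nonneg y i)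
    rw [e1, E1_const q hq1]
    have := E1_nonneg q (ww y) hq (ww_nonneg y)
    have h2 := mul_nonneg (Nat.cast_nonneg (α := ℝ) k) this
    linarith
  have h1 : (k : ℝ) * (E1 q (ww y) - E1 q (fun i => min (db y i) 1)) - 1 / 20 ≤ 0 := by
    have e1 : (fun i => min (db y i) 1) = fun i => db y i := by
      funext i
      exact min_eq_left (db_le_one y hy i)
    rw [e1]
    have e2 : E1 q (fun i => db y i) - E1 q (ww y) = 1 - E1 q y := by
      have e3 : E1 q (fun i => db y i - ww y i) = E1 q (fun i => 1 - y i) := by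
        congr 1
        funext i
        exact db_sub_ww y i
      rw [E1_sub, E1_sub, E1_const q hq1] at e3
      exact e3
    have h2 : 0 ≤ (k : ℝ) * (1 - E1 q y) := mul_nonneg (Nat.cast_nonneg _) (by linarith)
    have e4 : (k : ℝ) * (E1 q (ww y) - E1 q (fun i => db y i)) = -(k * (1 - E1 q y)) := by
      rw [← e2]
      ring
    rw [e4]
    linarith
  obtain ⟨t, ht, ht2⟩ := intermediate_value_Icc' (zero_le_one (α := ℝ)) hc.continuousOn
    (⟨h1, h0⟩ : (0 : ℝ) ∈ Set.Icc _ _)
  refine ⟨t, ht.1, ht.2, ?_⟩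
  simp only at ht2
  linarith

/-- the bound for the negative part of the truncated sum -/
theorem kappa (k : ℕ) (hk : 1 ≤ k) (q y : ι → ℝ) (hq : ∀ i, 0 ≤ q i) (hq1 : ∑ i, q i = 1)
    (t : ℝ) (ht : 0 ≤ t)
    (hm : k * (E1 q (ww y) - E1 q (fun i => min (db y i) t)) = t / 20)
    (hP : Ek k q (fun ω => if ∑ j, y (ω j) < k then 1 else 0) < 1 / 30) :
    Ek k q (fun ω => max (∑ j, -ff y t (ω j)) 0) ≤ 14 / 25 * t := by
  rcases ht.eq_or_lt with h0 | h0
  · subst h0
    have e0 : (fun i => min (db y i) 0) = fun _ => (0 : ℝ) := by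
      funext i
      exact min_eq_right (db_nonneg y i)
    rw [e0, E1_const q hq1] at hm
    have e1 : ∀ i, -ff y 0 i = ww y i := by
      intro i
      unfold ff
      rw [min_eq_right (db_nonneg y i)]
      ring
    have e2 : (fun ω : Fin k → ι => max (∑ j, -ff y 0 (ω j)) 0) =
        fun ω => ∑ j, ww y (ω j) := by
      funext ω
      simp only [e1]
      exact max_eq_left (Finset.sum_nonneg (fun j _ => ww_nonneg y _))
    rw [e2, Ek_sumf k q hq1]
    linarith
  · refine dich k hk q hq hq1 (ff y t) t h0 (ff_le_t y t) ?_ ?_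
    · have e1 : E1 q (ff y t) = E1 q (fun i => min (db y i) t) - E1 q (ww y) := by
        rw [← E1_sub]
        rfl
      rw [e1]
      linarith
    · refine lt_of_le_of_lt (Ek_mono k q hq _ _ (fun ω => ?_)) hP
      by_cases h : 0 < ∑ j, ff y t (ω j)
      · rw [if_pos h, if_pos]
        have h1 : ∑ j, ff y t (ω j) ≤ ∑ j : Fin k, (1 - y (ω j)) :=
          Finset.sum_le_sum (fun j _ => ff_le y t _)
        rw [Finset.sum_sub_distrib, Finset.sum_const, Finset.card_univ, Fintype.card_fin,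
          nsmul_eq_mul, mul_one] at h1
        linarith
      · rw [if_neg h]
        split_ifs <;> norm_num

/-- tail of the negative part for one sample less -/
theorem psi (k : ℕ) (q y : ι → ℝ) (hq : ∀ i, 0 ≤ q i) (hq1 : ∑ i, q i = 1)
    (t : ℝ) (ht : 0 ≤ t)
    (hm : ((k + 1 : ℕ) : ℝ) * (E1 q (ww y) - E1 q (fun i => min (db y i) t)) = t / 20)
    (hκ : Ek (k + 1) q (fun ω => max (∑ j, -ff y t (ω j)) 0) ≤ 14 / 25 * t)
    (b : ℝ) (hb : t < b) (hb1 : b ≤ 1) :
    Ek k q (fun ω => if b ≤ ∑ j, -ff y t (ω j) then 1 else 0) ≤ 14 / 25 * (1 + t - b) ∧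
    Ek k q (fun ω => if b ≤ ∑ j, -ff y t (ω j) then 1 else 0) ≤ 14 / 25 := by
  have hb0 : 0 < b := lt_of_le_of_lt ht hb
  have hE : 0 ≤ E1 q (fun i => -ff y t i) := by
    have e1 : E1 q (fun i => -ff y t i) = E1 q (ww y) - E1 q (fun i => min (db y i) t) := by
      rw [← E1_sub]
      congr 1
      funext i
      unfold ff
      ring
    rw [e1]
    have hk : (0 : ℝ) < ((k + 1 : ℕ) : ℝ) := by positivity
    by_contra hcon
    push Not at hcon
    nlinarith
  have h1 := Ek_jensen k q hq hq1 (fun i => -ff y t i) hE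
  have h2 : b * Ek k q (fun ω => if b ≤ ∑ j, -ff y t (ω j) then 1 else 0) ≤
      Ek k q (fun ω => max (∑ j, -ff y t (ω j)) 0) := by
    rw [← Ek_mul]
    refine Ek_mono k q hq _ _ (fun ω => ?_)
    by_cases h : b ≤ ∑ j, -ff y t (ω j)
    · rw [if_pos h, mul_one]
      exact h.trans (le_max_left _ _)
    · rw [if_neg h, mul_zero]
      exact le_max_right _ _
  set p := Ek k q (fun ω => if b ≤ ∑ j, -ff y t (ω j) then 1 else 0) with hp
  have h3 : b * p ≤ 14 / 25 * t := h2.trans (h1.trans hκ)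
  constructor
  · have h4 : t ≤ b * (1 + t - b) := by nlinarith [mul_nonneg (sub_nonneg.mpr hb.le) (sub_nonneg.mpr hb1)]
    by_contra hcon
    push Not at hcon
    nlinarith
  · by_contra hcon
    push Not at hcon
    nlinarith

/-- the upper bound -/
theorem upper (k : ℕ) (q y : ι → ℝ) (hq : ∀ i, 0 ≤ q i) (hy : ∀ i, 0 ≤ y i)
    (hq1 : ∑ i, q i = 1) (t : ℝ) (ht : 0 ≤ t)
    (hm : ((k + 1 : ℕ) : ℝ) * (E1 q (ww y) - E1 q (fun i => min (db y i) t)) = t / 20)
    (hκ : Ek (k + 1) q (fun ω => max (∑ j, -ff y t (ω j)) 0) ≤ 14 / 25 * t) :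
    Ek (k + 1) q (fun ω => if ((k + 1 : ℕ) : ℝ) ≤ ∑ j, y (ω j) then 1 else 0) ≤
      (1 - E1 q (fun i => if t < db y i then 1 else 0)) ^ (k + 1) +
        14 / 25 * (((k + 1 : ℕ) : ℝ) * E1 q (fun i => if t < db y i then 1 + t - db y i else 0)) := by
  have hpt : ∀ ω : Fin (k + 1) → ι, (if ((k + 1 : ℕ) : ℝ) ≤ ∑ j, y (ω j) then (1 : ℝ) else 0) ≤
      (∏ j, (1 - if t < db y (ω j) then (1 : ℝ) else 0)) +
        ∑ j, (if t < db y (ω j) ∧ db y (ω j) ≤ ∑ l : Fin k, -ff y t (ω (j.succAbove l))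
          then (1 : ℝ) else 0) := by
    intro ω
    have hp0 : 0 ≤ ∏ j, (1 - if t < db y (ω j) then (1 : ℝ) else 0) :=
      Finset.prod_nonneg (fun j _ => by split_ifs <;> norm_num)
    have hs0 : ∀ j ∈ (univ : Finset (Fin (k + 1))),
        0 ≤ (if t < db y (ω j) ∧ db y (ω j) ≤ ∑ l : Fin k, -ff y t (ω (j.succAbove l))
          then (1 : ℝ) else 0) := fun j _ => by split_ifs <;> norm_num
    by_cases hG : ((k + 1 : ℕ) : ℝ) ≤ ∑ j, y (ω j)
    · rw [if_pos hG]
      by_cases hall : ∀ j, ¬ t < db y (ω j)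
      · have e1 : ∏ j, (1 - if t < db y (ω j) then (1 : ℝ) else 0) = 1 := by
          refine Finset.prod_eq_one (fun j _ => ?_)
          rw [if_neg (hall j), sub_zero]
        rw [e1]
        have := Finset.sum_nonneg hs0
        linarith
      · push Not at hall
        obtain ⟨j, hj⟩ := hall
        obtain ⟨hw, hd⟩ := ww_zero y t ht (ω j) hj
        have h1 : db y (ω j) ≤ ∑ l : Fin k, -ff y t (ω (j.succAbove l)) := by
          rw [Fin.sum_univ_succAbove _ j] at hG
          have h2 : ∑ l : Fin k, -(1 - y (ω (j.succAbove l))) ≤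
              ∑ l : Fin k, -ff y t (ω (j.succAbove l)) :=
            Finset.sum_le_sum (fun l _ => neg_le_neg (ff_le y t _))
          have h3 : ∑ l : Fin k, -(1 - y (ω (j.succAbove l))) =
              (∑ l : Fin k, y (ω (j.succAbove l))) - k := by
            rw [Finset.sum_neg_distrib, Finset.sum_sub_distrib, Finset.sum_const,
              Finset.card_univ, Fintype.card_fin, nsmul_eq_mul, mul_one]
            ring
          push_cast at hG
          rw [hd]
          linarith
        have h2 := Finset.single_le_sum hs0 (Finset.mem_univ j)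
        rw [if_pos ⟨hj, h1⟩] at h2
        linarith
    · rw [if_neg hG]
      have := Finset.sum_nonneg hs0
      linarith
  refine (Ek_mono (k + 1) q hq _ _ hpt).trans ?_
  rw [Ek_add, Ek_prod (k + 1) q (fun i => 1 - if t < db y i then (1 : ℝ) else 0), E1_sub,
    E1_const q hq1, Ek_sum]
  have hterm : ∀ j ∈ (univ : Finset (Fin (k + 1))),
      Ek (k + 1) q (fun ω => if t < db y (ω j) ∧ db y (ω j) ≤
        ∑ l : Fin k, -ff y t (ω (j.succAbove l)) then (1 : ℝ) else 0) ≤
      14 / 25 * E1 q (fun i => if t < db y i then 1 + t - db y i else 0) := by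
    intro j _
    rw [Ek_split k q j, ← E1_mul]
    refine E1_mono q _ _ hq (fun i => ?_)
    simp only [Fin.insertNth_apply_same, Fin.insertNth_apply_succAbove]
    by_cases h : t < db y i
    · simp only [h, true_and, if_true]
      exact (psi k q y hq hq1 t ht hm hκ (db y i) h (db_le_one y hy i)).1
    · simp only [h, false_and, if_false, mul_zero]
      rw [Ek_const k q hq1]
  have h3 := Finset.sum_le_sum hterm
  rw [Finset.sum_const, Finset.card_univ, Fintype.card_fin, nsmul_eq_mul] at h3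
  linarith

/-- many samples with a large deficit: the sum is small with constant probability -/
theorem lower (k : ℕ) (q y : ι → ℝ) (hq : ∀ i, 0 ≤ q i) (hy : ∀ i, 0 ≤ y i)
    (hq1 : ∑ i, q i = 1) (t : ℝ) (ht : 0 ≤ t)
    (hm : ((k + 1 : ℕ) : ℝ) * (E1 q (ww y) - E1 q (fun i => min (db y i) t)) = t / 20)
    (hκ : Ek (k + 1) q (fun ω => max (∑ j, -ff y t (ω j)) 0) ≤ 14 / 25 * t)
    (lam : ℝ) (hlam : lam = ((k + 1 : ℕ) : ℝ) * E1 q (fun i => if t < db y i then 1 else 0))
    (hl : 3 / 10 < lam) :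
    1 / 30 ≤ Ek (k + 1) q (fun ω => if ∑ j, y (ω j) < ((k + 1 : ℕ) : ℝ) then 1 else 0) := by
  set c : ℝ := 11 / 25 / (1 + lam) with hc
  have hc0 : 0 < c := by positivity
  set ρ := E1 q (fun i => if t < db y i then (1 : ℝ) else 0) with hρ
  -- the counts
  set N : (Fin (k + 1) → ι) → ℝ := fun ω => ∑ j, (if t < db y (ω j) ∧
    ¬ db y (ω j) ≤ ∑ l : Fin k, -ff y t (ω (j.succAbove l)) then (1 : ℝ) else 0) with hN
  set N₀ : (Fin (k + 1) → ι) → ℝ := fun ω => ∑ j, (if t < db y (ω j) then (1 : ℝ) else 0) with hN₀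
  have hpt : ∀ ω, 2 * c * N ω - c ^ 2 * N₀ ω ^ 2 ≤
      (if ∑ j, y (ω j) < ((k + 1 : ℕ) : ℝ) then (1 : ℝ) else 0) := by
    intro ω
    have hNN : N ω ≤ N₀ ω := by
      refine Finset.sum_le_sum (fun j _ => ?_)
      by_cases h : t < db y (ω j)
      · rw [if_pos h]
        split_ifs <;> norm_num
      · rw [if_neg h, if_neg (fun h' => h h'.1)]
    have hN0 : 0 ≤ N ω := Finset.sum_nonneg (fun j _ => by split_ifs <;> norm_num)
    have hN00 : 0 ≤ N₀ ω := hN0.trans hNN
    by_cases hG : ∑ j, y (ω j) < ((k + 1 : ℕ) : ℝ)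
    · rw [if_pos hG]
      have h1 : c ^ 2 * N ω ^ 2 ≤ c ^ 2 * N₀ ω ^ 2 :=
        mul_le_mul_of_nonneg_left (pow_le_pow_left₀ hN0 hNN 2) (by positivity)
      nlinarith [sq_nonneg (c * N ω - 1)]
    · rw [if_neg hG]
      push Not at hG
      have h1 : N ω = 0 := by
        refine Finset.sum_eq_zero (fun j _ => ?_)
        rw [if_neg]
        rintro ⟨hj, hj2⟩
        apply hj2
        obtain ⟨hw, hd⟩ := ww_zero y t ht (ω j) hj
        rw [Fin.sum_univ_succAbove _ j] at hG
        have h2 : ∑ l : Fin k, -(1 - y (ω (j.succAbove l))) ≤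
            ∑ l : Fin k, -ff y t (ω (j.succAbove l)) :=
          Finset.sum_le_sum (fun l _ => neg_le_neg (ff_le y t _))
        have h3 : ∑ l : Fin k, -(1 - y (ω (j.succAbove l))) =
            (∑ l : Fin k, y (ω (j.succAbove l))) - k := by
          rw [Finset.sum_neg_distrib, Finset.sum_sub_distrib, Finset.sum_const,
            Finset.card_univ, Fintype.card_fin, nsmul_eq_mul, mul_one]
          ring
        push_cast at hG
        rw [hd]
        linarith
      rw [h1]
      have : 0 ≤ c ^ 2 * N₀ ω ^ 2 := by positivity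
      linarith
  have hE := Ek_mono (k + 1) q hq _ _ hpt
  rw [Ek_sub, Ek_mul, Ek_mul] at hE
  -- first moment of `N`
  have hEN : 11 / 25 * lam ≤ Ek (k + 1) q N := by
    rw [hN, Ek_sum]
    have hterm : ∀ j ∈ (univ : Finset (Fin (k + 1))),
        11 / 25 * ρ ≤ Ek (k + 1) q (fun ω => if t < db y (ω j) ∧
          ¬ db y (ω j) ≤ ∑ l : Fin k, -ff y t (ω (j.succAbove l)) then (1 : ℝ) else 0) := by
      intro j _
      rw [Ek_split k q j, hρ, ← E1_mul]
      refine E1_mono q _ _ hq (fun i => ?_)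
      simp only [Fin.insertNth_apply_same, Fin.insertNth_apply_succAbove]
      by_cases h : t < db y i
      · simp only [h, true_and, if_true, mul_one]
        have h1 := (psi k q y hq hq1 t ht hm hκ (db y i) h (db_le_one y hy i)).2
        have h2 : Ek k q (fun ω => if ¬ db y i ≤ ∑ l : Fin k, -ff y t (ω l) then (1 : ℝ) else 0) =
            1 - Ek k q (fun ω => if db y i ≤ ∑ l : Fin k, -ff y t (ω l) then (1 : ℝ) else 0) := by
          have h3 : (fun ω : Fin k → ι =>
              if ¬ db y i ≤ ∑ l : Fin k, -ff y t (ω l) then (1 : ℝ) else 0) =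
              fun ω => 1 - (if db y i ≤ ∑ l : Fin k, -ff y t (ω l) then (1 : ℝ) else 0) := by
            funext ω
            split_ifs <;> norm_num
          rw [h3, Ek_sub, Ek_one k q hq1]
        rw [h2]
        linarith
      · simp only [h, false_and, if_false, mul_zero]
        rw [Ek_const k q hq1]
    have h3 := Finset.sum_le_sum hterm
    rw [Finset.sum_const, Finset.card_univ, Fintype.card_fin, nsmul_eq_mul] at h3
    rw [hlam]
    linarith
  -- second moment of `N₀`
  have hEN2 : Ek (k + 1) q (fun ω => N₀ ω ^ 2) ≤ lam + lam ^ 2 := by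
    rw [hN₀]
    have h1 := Ek_sq (k + 1) q hq1 (fun i => if t < db y i then (1 : ℝ) else 0)
    rw [h1]
    have h2 : (fun i => (if t < db y i then (1 : ℝ) else 0) ^ 2) =
        fun i => if t < db y i then (1 : ℝ) else 0 := by
      funext i
      split_ifs <;> norm_num
    rw [h2, ← hρ, hlam]
    have h3 : 0 ≤ ((k + 1 : ℕ) : ℝ) * ρ ^ 2 := by positivity
    nlinarith
  have hl0 : 0 < lam := by linarith
  have h5 : 2 * c * (11 / 25 * lam) - c ^ 2 * (lam + lam ^ 2) ≤
      Ek (k + 1) q (fun ω => if ∑ j, y (ω j) < ((k + 1 : ℕ) : ℝ) then (1 : ℝ) else 0) := by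
    refine le_trans ?_ hE
    have h6 := mul_le_mul_of_nonneg_left hEN (by positivity : (0 : ℝ) ≤ 2 * c)
    have h7 := mul_le_mul_of_nonneg_left hEN2 (by positivity : (0 : ℝ) ≤ c ^ 2)
    linarith
  refine le_trans ?_ h5
  have e1 : 2 * c * (11 / 25 * lam) - c ^ 2 * (lam + lam ^ 2) =
      (11 / 25) ^ 2 * (lam / (1 + lam)) := by
    rw [hc]
    field_simp
    ring
  rw [e1]
  have h8 : 3 / 13 ≤ lam / (1 + lam) := by
    rw [le_div_iff₀ (by linarith)]
    linarith
  nlinarith

theorem pow_sub_ge (k : ℕ) (x z : ℝ) (hz : 0 ≤ z) (hxz : z ≤ x) :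
    ((k + 1 : ℕ) : ℝ) * (x - z) * z ^ k ≤ x ^ (k + 1) - z ^ (k + 1) := by
  induction k with
  | zero => simp
  | succ k ih =>
    have h1 : x ^ (k + 1 + 1) - z ^ (k + 1 + 1) = x * (x ^ (k + 1) - z ^ (k + 1)) +
        (x - z) * z ^ (k + 1) := by ring
    rw [h1]
    have hx : 0 ≤ x := hz.trans hxz
    have h2 : z * (((k + 1 : ℕ) : ℝ) * (x - z) * z ^ k) ≤ x * (x ^ (k + 1) - z ^ (k + 1)) := by
      refine mul_le_mul hxz ih ?_ hx
      have := sub_nonneg.mpr hxz
      positivity
    push_cast at h2 ⊢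
    have e : z * (((k : ℝ) + 1) * (x - z) * z ^ k) = ((k : ℝ) + 1) * (x - z) * z ^ (k + 1) := by
      ring
    rw [e] at h2
    linarith

/-- the main inequality -/
theorem main (k : ℕ) (hk : 1 ≤ k) (q y : ι → ℝ) (hq : ∀ i, 0 ≤ q i) (hq1 : ∑ i, q i = 1)
    (hy : ∀ i, 0 ≤ y i) (hm : E1 q y ≤ 1)
    (hP : 29 / 30 < Ek k q (fun ω => if (k : ℝ) ≤ ∑ j, y (ω j) then 1 else 0)) :
    ∃ t : ℝ, 0 ≤ t ∧ t ≤ 1 ∧
      k * (E1 q (ww y) - E1 q (fun i => min (db y i) t)) = t / 20 ∧
      k * E1 q (fun i => if t < db y i then 1 else 0) ≤ 3 / 10 ∧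
      k * E1 q (fun i => if t < db y i then 1 else 0) - k * (1 - E1 q y) =
        t / 20 + t * (k * E1 q (fun i => if t < db y i then 1 else 0)) +
          k * E1 q (fun i => if t < db y i then 1 - db y i else 0) ∧
      Ek k q (fun ω => if (k : ℝ) ≤ ∑ j, y (ω j) then 1 else 0) ≤
        (E1 q y) ^ k - 7 / 50 * (t / 20 +
          k * E1 q (fun i => if t < db y i then 1 - db y i else 0)) := by
  obtain ⟨t, ht, ht1, htm⟩ := exists_t k q y hq hy hq1 hm
  have hbad : Ek k q (fun ω => if ∑ j, y (ω j) < k then 1 else 0) < 1 / 30 := by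
    have e1 : (fun ω : Fin k → ι => if ∑ j, y (ω j) < (k : ℝ) then (1 : ℝ) else 0) =
        fun ω => 1 - (if (k : ℝ) ≤ ∑ j, y (ω j) then (1 : ℝ) else 0) := by
      funext ω
      by_cases h : (k : ℝ) ≤ ∑ j, y (ω j)
      · rw [if_neg (not_lt.mpr h), if_pos h, sub_self]
      · rw [if_pos (not_le.mp h), if_neg h, sub_zero]
    rw [e1, Ek_sub, Ek_one k q hq1]
    linarith
  have hκ := kappa k hk q y hq hq1 t ht htm hbad
  obtain ⟨k', rfl⟩ : ∃ k', k = k' + 1 := ⟨k - 1, by omega⟩
  set ρ := E1 q (fun i => if t < db y i then (1 : ℝ) else 0) with hρ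
  set K := (((k' + 1 : ℕ) : ℝ)) with hK
  have hK1 : 1 ≤ K := by
    rw [hK]
    push_cast
    have := Nat.cast_nonneg (α := ℝ) k'
    linarith
  set G₀ := E1 q (fun i => if t < db y i then 1 - db y i else 0) with hG₀
  have hl : K * ρ ≤ 3 / 10 := by
    by_contra hcon
    push Not at hcon
    have := lower k' q y hq hy hq1 t ht htm hκ (K * ρ) rfl hcon
    linarith
  have hρ0 : 0 ≤ ρ := E1_nonneg q _ hq (fun i => by split_ifs <;> norm_num)
  have hG0 : 0 ≤ G₀ := E1_nonneg q _ hq (fun i => by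
    split_ifs
    · linarith [db_le_one y hy i]
    · exact le_refl _)
  -- `E1 (if t < b then 1 + t - b) = t ρ + G₀`
  have hG : E1 q (fun i => if t < db y i then 1 + t - db y i else 0) = t * ρ + G₀ := by
    rw [hρ, hG₀, ← E1_mul, ← E1_add]
    congr 1
    funext i
    split_ifs <;> ring
  -- the identity
  have hid : K * ρ - K * (1 - E1 q y) = t / 20 + t * (K * ρ) + K * G₀ := by
    have e1 : 1 - E1 q y = E1 q (fun i => db y i) - E1 q (ww y) := by
      rw [← E1_sub, ← E1_const q hq1 1, ← E1_sub]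
      congr 1
      funext i
      exact (db_sub_ww y i).symm
    have e2 : E1 q (fun i => db y i) = E1 q (fun i => min (db y i) t) + (1 - t) * ρ - G₀ := by
      rw [hρ, hG₀, ← E1_mul, ← E1_add, ← E1_sub]
      congr 1
      funext i
      by_cases h : t < db y i
      · rw [if_pos h, if_pos h, min_eq_right h.le]
        ring
      · rw [if_neg h, if_neg h, min_eq_left (not_lt.mp h)]
        ring
    rw [e1, e2]
    nlinarith
  have hup := upper k' q y hq hy hq1 t ht htm hκ
  rw [hG, ← hρ, ← hK] at hup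
  refine ⟨t, ht, ht1, htm, hl, hid, hup.trans ?_⟩
  -- compare the powers
  have hz : 0 ≤ 1 - ρ := by nlinarith
  have hxz : 1 - ρ ≤ E1 q y := by
    by_contra hcon
    push Not at hcon
    have h1 : 0 ≤ t * (K * ρ) := by positivity
    have h2 : 0 ≤ K * G₀ := by positivity
    nlinarith
  have h3 := pow_sub_ge k' (E1 q y) (1 - ρ) hz hxz
  rw [← hK] at h3
  have h4 : 7 / 10 ≤ (1 - ρ) ^ k' := by
    have h5 := one_add_mul_le_pow (a := -ρ) (by nlinarith) k'
    have h6 : (k' : ℝ) * ρ ≤ K * ρ := by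
      refine mul_le_mul_of_nonneg_right ?_ hρ0
      rw [hK]
      push_cast
      linarith
    have e : (1 : ℝ) + -ρ = 1 - ρ := by ring
    rw [e] at h5
    linarith
  have h5 : K * (E1 q y - (1 - ρ)) = t / 20 + t * (K * ρ) + K * G₀ := by
    rw [← hid]
    ring
  have h6 : 0 ≤ t / 20 + t * (K * ρ) + K * G₀ := by positivity
  rw [h5] at h3
  have h7 : (t / 20 + t * (K * ρ) + K * G₀) * (7 / 10) ≤
      (t / 20 + t * (K * ρ) + K * G₀) * (1 - ρ) ^ k' := mul_le_mul_of_nonneg_left h4 h6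
  have h8 : 0 ≤ t * (K * ρ) := by positivity
  have h9 : 0 ≤ t := ht
  nlinarith

end Pool.Agent.Helper29.NP
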