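import Pool.Agent.Helper29.NP.Main
import Pool.Agent.Helper3.EMK.St3

/-!
# Project NP: stability near the clique
-/

set_option autoImplicit false

open Finset

namespace Pool.Agent.Helper29.NP

open Pool.Agent.Helper3.EMK (Prb mass)

theorem Prb_eq {ι : Type} [Fintype ι] (k : ℕ) (hk : 1 ≤ k) (q x : ι → ℝ) :
    Prb k 1 q x = Ek k q (fun ω => if (k : ℝ) ≤ ∑ j, (fun i => (k : ℝ) * x i) (ω j) then 1 else 0) := by
  unfold Prb Ek
  refine Finset.sum_congr rfl (fun ω _ => ?_)
  have hk0 : (0 : ℝ) < k := by exact_mod_cast hk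
  have e : ∑ j, (fun i => (k : ℝ) * x i) (ω j) = k * ∑ j, x (ω j) := by
    rw [Finset.mul_sum]
  change _ = (∏ j, q (ω j)) *
    (if (k : ℝ) ≤ ∑ j, (fun i => (k : ℝ) * x i) (ω j) then 1 else 0)
  rw [e]
  by_cases h : 1 ≤ ∑ j, x (ω j)
  · rw [if_pos h, if_pos (by nlinarith), mul_one]
  · rw [if_neg h, if_neg (by push Not at h ⊢; nlinarith), mul_zero]

/-- the iid inequality near the perfect case -/
theorem iid_np (k : ℕ) (hk : 1 ≤ k) {ι : Type} [Fintype ι] (q x : ι → ℝ)
    (hq : ∀ i, 0 ≤ q i) (hq1 : ∑ i, q i = 1) (hx : ∀ i, 0 ≤ x i) (a : ℝ) (hak : a ≤ 1 / k)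
    (hak2 : 30 / (30 * k + 1) ≤ a) (hm : ∑ i, q i * x i ≤ a) :
    (∑ ω : Fin k → ι, if 1 ≤ ∑ j, x (ω j) then ∏ j, q (ω j) else 0) ≤ (k * a) ^ k := by
  have hk0 : (0 : ℝ) < k := by exact_mod_cast hk
  have hP := Prb_eq k hk q x
  unfold Prb at hP
  rw [hP]
  set y : ι → ℝ := fun i => (k : ℝ) * x i with hy
  have hy0 : ∀ i, 0 ≤ y i := fun i => mul_nonneg hk0.le (hx i)
  have hEy : E1 q y ≤ k * a := by
    have : E1 q y = k * ∑ i, q i * x i := E1_mul q x k
    rw [this]
    exact mul_le_mul_of_nonneg_left hm hk0.le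
  have hka1 : k * a ≤ 1 := by
    rw [le_div_iff₀ hk0] at hak
    linarith
  have hka0 : 0 < k * a := mul_pos hk0 (lt_of_lt_of_le (by positivity) hak2)
  have hbern : 29 / 30 ≤ ((k : ℝ) * a) ^ k := by
    have h1 := one_add_mul_le_pow (a := (k : ℝ) * a - 1) (by linarith) k
    have e : (1 : ℝ) + (k * a - 1) = k * a := by ring
    rw [e] at h1
    have h2 : 1 - (k : ℝ) * a ≤ 1 / (30 * k + 1) := by
      have h3 : (k : ℝ) * (30 / (30 * k + 1)) ≤ k * a := mul_le_mul_of_nonneg_left hak2 hk0.le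
      have h4 : (k : ℝ) * (30 / (30 * k + 1)) = 1 - 1 / (30 * k + 1) := by
        field_simp
        ring
      linarith
    have h3 : (k : ℝ) * (1 - k * a) ≤ k * (1 / (30 * k + 1)) := mul_le_mul_of_nonneg_left h2 hk0.le
    have h4 : (k : ℝ) * (1 / (30 * k + 1)) ≤ 1 / 30 := by
      rw [mul_one_div, div_le_div_iff₀ (by positivity) (by norm_num)]
      linarith
    linarith
  by_cases hP : 29 / 30 < Ek k q (fun ω => if (k : ℝ) ≤ ∑ j, y (ω j) then 1 else 0)
  · obtain ⟨t, ht0, -, -, -, -, hup⟩ := main k hk q y hq hq1 hy0 (hEy.trans hka1) hP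
    have hG0 : 0 ≤ E1 q (fun i => if t < db y i then 1 - db y i else 0) :=
      E1_nonneg q _ hq (fun i => by
        split_ifs
        · linarith [db_le_one y hy0 i]
        · exact le_refl _)
    have h1 : E1 q y ^ k ≤ (k * a) ^ k := pow_le_pow_left₀ (E1_nonneg q y hq hy0) hEy k
    have h2 : 0 ≤ k * E1 q (fun i => if t < db y i then 1 - db y i else 0) := by positivity
    linarith
  · push Not at hP
    exact hP.trans hbern

theorem mass_le {ι : Type} [Fintype ι] (q : ι → ℝ) (hq : ∀ i, 0 ≤ q i) (A : ι → Prop) (f : ι → ℝ)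
    (hf : ∀ i, 0 ≤ f i) (h : ∀ i, A i → 1 ≤ f i) : mass q A ≤ E1 q f := by
  unfold mass E1
  refine Finset.sum_le_sum (fun i _ => ?_)
  split_ifs with hA
  · have := mul_le_mul_of_nonneg_left (h i hA) (hq i)
    linarith
  · exact mul_nonneg (hq i) (hf i)

theorem le_mass {ι : Type} [Fintype ι] (q : ι → ℝ) (hq : ∀ i, 0 ≤ q i) (A : ι → Prop) (f : ι → ℝ)
    (hf : ∀ i, f i ≤ 1) (h : ∀ i, ¬ A i → f i ≤ 0) : E1 q f ≤ mass q A := by
  unfold mass E1
  refine Finset.sum_le_sum (fun i _ => ?_)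
  split_ifs with hA
  · have := mul_le_mul_of_nonneg_left (hf i) (hq i)
    linarith
  · have := mul_le_mul_of_nonneg_left (h i hA) (hq i)
    linarith

theorem stab (k : ℕ) (hk : 1 ≤ k) (τ : ℝ) (hτ : 0 < τ) : ∃ ζ : ℝ, 0 < ζ ∧
    ∀ (ι : Type) [Fintype ι] (q x : ι → ℝ) (a : ℝ), (∀ i, 0 ≤ q i) → ∑ i, q i = 1 →
      (∀ i, 0 ≤ x i) → a ≤ 1 / k → 30 / (30 * k + 1) ≤ a → ∑ i, q i * x i ≤ a →
      (k * a) ^ k - ζ ≤ Prb k 1 q x →
      mass q (fun i => τ < x i ∧ τ < |x i - 1 / k|) ≤ τ ∧
        k * a - τ ≤ mass q (fun i => |x i - 1 / k| ≤ τ) := by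
  have hk0 : (0 : ℝ) < k := by exact_mod_cast hk
  have hk1 : (1 : ℝ) ≤ k := by exact_mod_cast hk
  refine ⟨min (1 / (60 * (30 * k + 1))) (min τ (τ ^ 2) / 300), ?_, ?_⟩
  · refine lt_min (by positivity) ?_
    have := lt_min hτ (by positivity : 0 < τ ^ 2)
    positivity
  intro ι _ q x a hq hq1 hx hak hak2 hmean hPr
  set ζ := min (1 / (60 * (30 * (k : ℝ) + 1))) (min τ (τ ^ 2) / 300) with hζ
  have hζ0 : 0 < ζ := by
    refine lt_min (by positivity) ?_
    have := lt_min hτ (by positivity : 0 < τ ^ 2)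
    positivity
  have hζ1 : ζ ≤ 1 / (60 * (30 * k + 1)) := min_le_left _ _
  have hζ2 : ζ ≤ τ / 300 := (min_le_right _ _).trans (by
    have := min_le_left τ (τ ^ 2)
    linarith)
  have hζ3 : ζ ≤ τ ^ 2 / 300 := (min_le_right _ _).trans (by
    have := min_le_right τ (τ ^ 2)
    linarith)
  have ha0 : 0 < a := lt_of_lt_of_le (by positivity) hak2
  have hka0 : 0 < k * a := by positivity
  have hka1 : k * a ≤ 1 := by
    rw [le_div_iff₀ hk0] at hak
    linarith
  -- Bernoulli
  have hbern : 29 / 30 + 1 / (30 * (30 * (k : ℝ) + 1)) ≤ (k * a) ^ k := by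
    have h1 := one_add_mul_le_pow (a := (k : ℝ) * a - 1) (by linarith) k
    have e : (1 : ℝ) + (k * a - 1) = k * a := by ring
    rw [e] at h1
    have h2 : 1 - (k : ℝ) * a ≤ 1 / (30 * k + 1) := by
      have h3 : (k : ℝ) * (30 / (30 * k + 1)) ≤ k * a := mul_le_mul_of_nonneg_left hak2 hk0.le
      have h4 : (k : ℝ) * (30 / (30 * k + 1)) = 1 - 1 / (30 * k + 1) := by
        field_simp
        ring
      linarith
    have h3 : (k : ℝ) * (1 - k * a) ≤ k * (1 / (30 * k + 1)) := mul_le_mul_of_nonneg_left h2 hk0.le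
    have h4 : (k : ℝ) * (1 / (30 * k + 1)) = 1 / 30 - 1 / (30 * (30 * k + 1)) := by
      field_simp
      ring
    linarith
  have hgap : 1 / (60 * (30 * (k : ℝ) + 1)) < 1 / (30 * (30 * (k : ℝ) + 1)) := by
    apply one_div_lt_one_div_of_lt (by positivity)
    nlinarith
  rw [Prb_eq k hk] at hPr
  set y : ι → ℝ := fun i => (k : ℝ) * x i with hy
  have hy0 : ∀ i, 0 ≤ y i := fun i => mul_nonneg hk0.le (hx i)
  have hEy : E1 q y ≤ k * a := by
    have : E1 q y = k * ∑ i, q i * x i := E1_mul q x k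
    rw [this]
    exact mul_le_mul_of_nonneg_left hmean hk0.le
  have hP : 29 / 30 < Ek k q (fun ω => if (k : ℝ) ≤ ∑ j, y (ω j) then 1 else 0) := by
    linarith
  obtain ⟨t, ht0, ht1, htm, hl, hid, hup⟩ := main k hk q y hq hq1 hy0 (hEy.trans hka1) hP
  set ρ := E1 q (fun i => if t < db y i then (1 : ℝ) else 0) with hρ
  set G₀ := E1 q (fun i => if t < db y i then 1 - db y i else 0) with hG₀
  set W := E1 q (ww y) with hW
  set m := E1 q y with hm
  have hm0 : 0 ≤ m := E1_nonneg q y hq hy0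
  have hG0 : 0 ≤ G₀ := E1_nonneg q _ hq (fun i => by
    split_ifs
    · linarith [db_le_one y hy0 i]
    · exact le_refl _)
  have hW0 : 0 ≤ W := E1_nonneg q _ hq (ww_nonneg y)
  have hmk : m ^ k ≤ (k * a) ^ k := pow_le_pow_left₀ hm0 hEy k
  have hU : t / 20 + k * G₀ ≤ 8 * ζ := by linarith
  have ht160 : t ≤ 160 * ζ := by
    have : 0 ≤ k * G₀ := by positivity
    linarith
  have hG8 : G₀ ≤ 8 * ζ := by nlinarith
  -- the mean
  have hma : k * a - m ≤ 2 * ζ := by
    obtain ⟨k', hk'⟩ : ∃ k', k = k' + 1 := ⟨k - 1, by omega⟩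
    have h1 : (k * a) ^ k - m ^ k ≤ ζ := by
      have h0 : 0 ≤ t / 20 + k * G₀ := by positivity
      linarith
    have h2 : ((k : ℝ) * a) ^ k' * (k * a - m) ≤ (k * a) ^ k - m ^ k := by
      have e1 : ((k : ℝ) * a) ^ k = (k * a) ^ k' * (k * a) := by
        conv_lhs => rw [show ((k : ℝ) * a) ^ k = ((k : ℝ) * a) ^ (k' + 1) by rw [← hk']]
        rw [pow_succ]
      have e2 : m ^ k = m ^ k' * m := by
        conv_lhs => rw [hk', pow_succ]
      rw [e1, e2]
      have h3 : m ^ k' * m ≤ ((k : ℝ) * a) ^ k' * m :=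
        mul_le_mul_of_nonneg_right (pow_le_pow_left₀ hm0 hEy k') hm0
      nlinarith
    have h3 : (29 : ℝ) / 30 ≤ ((k : ℝ) * a) ^ k' := by
      have h4 : ((k : ℝ) * a) ^ k ≤ (k * a) ^ k' :=
        pow_le_pow_of_le_one hka0.le hka1 (by omega)
      have h5 : (0 : ℝ) < 1 / (30 * (30 * k + 1)) := by positivity
      linarith
    have h4 : 29 / 30 * (k * a - m) ≤ ((k : ℝ) * a) ^ k' * (k * a - m) :=
      mul_le_mul_of_nonneg_right h3 (by linarith)
    linarith
  -- the excess
  have hWb : W ≤ 168 * ζ := by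
    have h1 : E1 q (fun i => min (db y i) t) ≤ t := by
      have := E1_mono q (fun i => min (db y i) t) (fun _ => t) hq (fun i => min_le_right _ _)
      rwa [E1_const q hq1] at this
    have h2 : (k : ℝ) * W ≤ k * (t + t / 20) := by
      have h3 : (k : ℝ) * E1 q (fun i => min (db y i) t) ≤ k * t :=
        mul_le_mul_of_nonneg_left h1 hk0.le
      have h4 : t / 20 ≤ k * (t / 20) := by nlinarith
      nlinarith
    have h3 : W ≤ t + t / 20 := le_of_mul_le_mul_left h2 hk0
    linarith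
  have hρb : ρ ≤ 1 - m + 56 * ζ := by
    have h1 : t * (k * ρ) ≤ 48 * ζ := by
      have hρ0 : 0 ≤ ρ := E1_nonneg q _ hq (fun i => by split_ifs <;> norm_num)
      have h2 : t * (k * ρ) ≤ t * (3 / 10) := mul_le_mul_of_nonneg_left hl ht0
      linarith
    have h2 : (k : ℝ) * ρ ≤ k * (1 - m + 56 * ζ) := by
      have h3 : 56 * ζ ≤ k * (56 * ζ) := by nlinarith
      linarith
    exact le_of_mul_le_mul_left h2 hk0
  have hτk : τ ≤ k * τ := by nlinarith
  have htτ : t ≤ τ := by linarith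
  -- translation of the events
  have hev : ∀ i, τ < |x i - 1 / k| → τ < ww y i ∨ (τ < db y i ∧ db y i = 1 - y i) := by
    intro i hi
    rw [lt_abs] at hi
    rcases hi with hi | hi
    · left
      have h1 : k * τ < y i - 1 := by
        have h2 := mul_lt_mul_of_pos_left hi hk0
        have e : (k : ℝ) * (x i - 1 / k) = y i - 1 := by
          rw [hy]
          field_simp
        linarith
      exact lt_of_lt_of_le (lt_of_le_of_lt hτk h1) (le_max_left _ _)
    · right
      have h1 : k * τ < 1 - y i := by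
        have h2 := mul_lt_mul_of_pos_left hi hk0
        have e : (k : ℝ) * (-(x i - 1 / k)) = 1 - y i := by
          rw [hy]
          field_simp
          ring
        linarith
      have h2 : db y i = 1 - y i := max_eq_left (by linarith)
      exact ⟨by rw [h2]; linarith, h2⟩
  constructor
  · have h1 : mass q (fun i => τ < x i ∧ τ < |x i - 1 / k|) ≤
        E1 q (fun i => (1 / τ) * (ww y i + (if t < db y i then 1 - db y i else 0))) := by
      refine mass_le q hq _ _ (fun i => ?_) (fun i hi => ?_)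
      · have h2 : 0 ≤ (if t < db y i then 1 - db y i else 0) := by
          split_ifs
          · linarith [db_le_one y hy0 i]
          · exact le_refl _
        have h3 := ww_nonneg y i
        positivity
      · have h2 : 0 ≤ (if t < db y i then 1 - db y i else 0) := by
          split_ifs
          · linarith [db_le_one y hy0 i]
          · exact le_refl _
        rw [one_div, inv_mul_eq_div, le_div_iff₀ hτ, one_mul]
        rcases hev i hi.2 with h3 | ⟨h3, h4⟩
        · linarith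
        · rw [if_pos (by linarith), h4]
          have h5 : τ < y i := lt_of_le_of_lt hτk (mul_lt_mul_of_pos_left hi.1 hk0)
          have h6 := ww_nonneg y i
          linarith
    rw [E1_mul, E1_add] at h1
    refine h1.trans ?_
    rw [one_div, inv_mul_eq_div, div_le_iff₀ hτ]
    have e1 : E1 q (fun i => ww y i) = W := rfl
    rw [e1]
    nlinarith
  · have h1 : E1 q (fun i => (1 - (1 / τ) * ww y i) - (if t < db y i then 1 else 0)) ≤
        mass q (fun i => |x i - 1 / k| ≤ τ) := by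
      refine le_mass q hq _ _ (fun i => ?_) (fun i hi => ?_)
      · have h2 : (0 : ℝ) ≤ (if t < db y i then 1 else 0) := by split_ifs <;> norm_num
        have h3 := ww_nonneg y i
        have h4 : 0 ≤ 1 / τ * ww y i := by positivity
        linarith
      · rw [not_le] at hi
        have h2 : (0 : ℝ) ≤ (if t < db y i then 1 else 0) := by split_ifs <;> norm_num
        have h3 := ww_nonneg y i
        have h4 : 0 ≤ 1 / τ * ww y i := by positivity
        rcases hev i hi with h5 | ⟨h5, h6⟩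
        · have h7 : 1 ≤ 1 / τ * ww y i := by
            rw [one_div, inv_mul_eq_div, le_div_iff₀ hτ, one_mul]
            exact h5.le
          linarith
        · rw [if_pos (by linarith)]
          linarith
    rw [E1_sub, E1_sub, E1_const q hq1, E1_mul] at h1
    refine le_trans ?_ h1
    have e1 : E1 q (fun i => ww y i) = W := rfl
    rw [e1, ← hρ]
    have h2 : 1 / τ * W ≤ 168 / 300 * τ := by
      rw [one_div, inv_mul_eq_div, div_le_iff₀ hτ]
      nlinarith
    linarith

end Pool.Agent.Helper29.NP
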